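import Mathlib

set_option autoImplicit false

namespace Pool.Agent.Results.MP_0f31da_co.ForestDisproof

open Finset

open Classical in
/-- The largest number of vertices of an induced forest. -/
noncomputable def forestNum {V : Type} [Fintype V] (G : SimpleGraph V) : ℕ :=
  (univ.filter fun S : Finset V => (G.induce (S : Set V)).IsAcyclic).sup card

open Classical in
/-- The largest number of vertices of an induced bipartite subgraph. -/
noncomputable def bipNum {V : Type} [Fintype V] (G : SimpleGraph V) : ℕ :=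
  (univ.filter fun S : Finset V => (G.induce (S : Set V)).Colorable 2).sup card

/-- Local independence number: independence number of the graph induced on `N(v)`. -/
noncomputable def locInd {V : Type} (G : SimpleGraph V) (v : V) : ℕ :=
  (G.induce (G.neighborSet v)).indepNum

/-- The average local independence number. -/
noncomputable def avgLocInd {V : Type} [Fintype V] (G : SimpleGraph V) : ℝ :=
  (∑ v, (locInd G v : ℝ)) / Fintype.card V

/-- adjacency of a 4-cycle and a complete graph on 100 vertices joined by one edge -/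
def A : Fin 4 ⊕ Fin 100 → Fin 4 ⊕ Fin 100 → Prop
  | Sum.inl i, Sum.inl j => (SimpleGraph.cycleGraph 4).Adj i j
  | Sum.inr i, Sum.inr j => i ≠ j
  | Sum.inl i, Sum.inr j => i = 0 ∧ j = 0
  | Sum.inr i, Sum.inl j => i = 0 ∧ j = 0

/-- A 4-cycle and a complete graph on 100 vertices joined by one edge. -/
def G : SimpleGraph (Fin 4 ⊕ Fin 100) where
  Adj := A
  symm := ⟨by
    rintro (i | i) (j | j) h
    · exact (SimpleGraph.cycleGraph 4).symm.symm _ _ h
    · exact ⟨h.2, h.1⟩
    · exact ⟨h.2, h.1⟩
    · exact Ne.symm h⟩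
  loopless := ⟨by
    rintro (i | i) h
    · exact (SimpleGraph.cycleGraph 4).loopless.irrefl i h
    · exact h rfl⟩

lemma G_ll (i j : Fin 4) : G.Adj (Sum.inl i) (Sum.inl j) ↔ (SimpleGraph.cycleGraph 4).Adj i j :=
  Iff.rfl
lemma G_rr (i j : Fin 100) : G.Adj (Sum.inr i) (Sum.inr j) ↔ i ≠ j := Iff.rfl
lemma G_lr (i : Fin 4) (j : Fin 100) : G.Adj (Sum.inl i) (Sum.inr j) ↔ i = 0 ∧ j = 0 := Iff.rfl
lemma G_rl (i : Fin 4) (j : Fin 100) : G.Adj (Sum.inr j) (Sum.inl i) ↔ j = 0 ∧ i = 0 := Iff.rfl

lemma connected : G.Connected := by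
  have hr : ∀ x, G.Reachable (Sum.inr 0) x := by
    rintro (i | j)
    · have h0 : G.Reachable (Sum.inr 0) (Sum.inl 0) :=
        SimpleGraph.Adj.reachable ((G_rl 0 0).mpr ⟨rfl, rfl⟩)
      have h1 : G.Reachable (Sum.inl 0) (Sum.inl 1) :=
        SimpleGraph.Adj.reachable ((G_ll 0 1).mpr (by decide))
      have h3 : G.Reachable (Sum.inl 0) (Sum.inl 3) :=
        SimpleGraph.Adj.reachable ((G_ll 0 3).mpr (by decide))
      have h2 : G.Reachable (Sum.inl 1) (Sum.inl 2) :=
        SimpleGraph.Adj.reachable ((G_ll 1 2).mpr (by decide))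
      fin_cases i
      · exact h0
      · exact h0.trans h1
      · exact h0.trans (h1.trans h2)
      · exact h0.trans h3
    · by_cases h : (0 : Fin 100) = j
      · rw [h]
      · exact SimpleGraph.Adj.reachable ((G_rr 0 j).mpr h)
  haveI : Nonempty (Fin 4 ⊕ Fin 100) := ⟨Sum.inl 0⟩
  exact SimpleGraph.Connected.mk fun x y => (hr x).symm.trans (hr y)

lemma forest_le : forestNum G ≤ 5 := by
  classical
  unfold forestNum
  apply Finset.sup_le
  intro S hS
  simp only [mem_filter, mem_univ, true_and] at hS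
  rw [SimpleGraph.isAcyclic_iff_free_cycleGraph] at hS
  have hR : S.toRight.card ≤ 2 := by
    by_contra hcon
    push Not at hcon
    obtain ⟨a, ha, b, hb, c, hc, hab, hac, hbc⟩ := Finset.two_lt_card.mp hcon
    rw [mem_toRight] at ha hb hc
    apply hS 3 le_rfl
    refine ⟨⟨⟨fun i => if i = 0 then ⟨Sum.inr a, ha⟩ else if i = 1 then ⟨Sum.inr b, hb⟩
      else ⟨Sum.inr c, hc⟩, ?_⟩, ?_⟩⟩
    · intro i j hij
      have hij' : i ≠ j := hij.ne
      fin_cases i <;> fin_cases j <;> simp at hij' <;>
        simp [SimpleGraph.comap_adj, G_rr, hab, hac, hbc, Ne.symm hab, Ne.symm hac, Ne.symm hbc]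
    · intro i j hij
      fin_cases i <;> fin_cases j <;>
        simp_all [Ne.symm hab, Ne.symm hac, Ne.symm hbc]
  have hL : S.toLeft.card ≤ 3 := by
    by_contra hcon
    push Not at hcon
    have hall : ∀ i : Fin 4, Sum.inl i ∈ S := by
      intro i
      have : S.toLeft = univ := by
        apply Finset.eq_univ_of_card
        have := Finset.card_le_univ S.toLeft
        simp only [Fintype.card_fin] at this ⊢
        omega
      rw [← mem_toLeft, this]
      exact mem_univ i
    apply hS 4 (by norm_num)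
    refine ⟨⟨⟨fun i => ⟨Sum.inl i, hall i⟩, ?_⟩, ?_⟩⟩
    · intro i j hij
      exact hij
    · intro i j hij
      have := congrArg Subtype.val hij
      exact Sum.inl_injective this
  have := Finset.card_toLeft_add_card_toRight (u := S)
  omega

lemma bip_ge : 6 ≤ bipNum G := by
  classical
  unfold bipNum
  set S : Finset (Fin 4 ⊕ Fin 100) := (univ : Finset (Fin 4)).disjSum {1, 2} with hS
  have hc : S.card = 6 := by
    rw [hS, card_disjSum]
    rfl
  rw [← hc]
  apply Finset.le_sup (f := card)
  simp only [mem_filter, mem_univ, true_and]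
  refine ⟨SimpleGraph.Coloring.mk (fun x => Sum.elim (fun i : Fin 4 => (⟨i.val % 2, by omega⟩ : Fin 2))
    (fun j : Fin 100 => (⟨j.val % 2, by omega⟩ : Fin 2)) x.1) ?_⟩
  rintro ⟨x, hx⟩ ⟨y, hy⟩ hxy hc
  have hadj : G.Adj x y := hxy
  rcases x with i | i <;> rcases y with j | j
  · rw [G_ll] at hadj
    simp only [Sum.elim_inl] at hc
    have key : ∀ i j : Fin 4, (SimpleGraph.cycleGraph 4).Adj i j → i.val % 2 ≠ j.val % 2 := by
      decide
    exact key i j hadj (congrArg Fin.val hc)
  · rw [G_lr] at hadj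
    simp only [hS, SetLike.mem_coe, Finset.inr_mem_disjSum, mem_insert, mem_singleton] at hy
    rw [hadj.2] at hy
    revert hy
    decide
  · rw [G_rl] at hadj
    simp only [hS, SetLike.mem_coe, Finset.inr_mem_disjSum, mem_insert, mem_singleton] at hx
    rw [hadj.1] at hx
    revert hx
    decide
  · rw [G_rr] at hadj
    simp only [hS, SetLike.mem_coe, Finset.inr_mem_disjSum, mem_insert, mem_singleton] at hx hy
    simp only [Sum.elim_inr] at hc
    have hc' := congrArg Fin.val hc
    simp only at hc'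
    rcases hx with rfl | rfl <;> rcases hy with rfl | rfl <;> simp_all

lemma loc_clique (j : Fin 100) (hj : j ≠ 0) : locInd G (Sum.inr j) ≤ 1 := by
  classical
  unfold locInd
  obtain ⟨s, hs⟩ := (G.induce (G.neighborSet (Sum.inr j))).exists_isNIndepSet_indepNum
  rw [SimpleGraph.isNIndepSet_iff] at hs
  rw [← hs.2, Finset.card_le_one]
  rintro ⟨x, hx⟩ ha ⟨y, hy⟩ hb
  by_contra hne
  have hind := hs.1 ha hb hne
  apply hind
  change G.Adj x y
  rw [SimpleGraph.mem_neighborSet] at hx hy
  rcases x with x | x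
  · rw [G_rl] at hx; exact absurd hx.1 hj
  rcases y with y | y
  · rw [G_rl] at hy; exact absurd hy.1 hj
  rw [G_rr]
  intro h
  apply hne
  simp [h]

lemma loc_join : locInd G (Sum.inr 0) ≤ 2 := by
  classical
  unfold locInd
  obtain ⟨s, hs⟩ := (G.induce (G.neighborSet (Sum.inr 0))).exists_isNIndepSet_indepNum
  rw [SimpleGraph.isNIndepSet_iff] at hs
  rw [← hs.2]
  have : s.card ≤ (univ : Finset Bool).card := by
    apply Finset.card_le_card_of_injOn (fun x => x.1.isLeft) (fun _ _ => Finset.mem_univ _)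
    rintro ⟨x, hx⟩ ha ⟨y, hy⟩ hb hxy
    by_contra hne
    have hind := hs.1 ha hb hne
    rw [SimpleGraph.mem_neighborSet] at hx hy
    rcases x with x | x <;> rcases y with y | y
    · rw [G_rl] at hx hy
      apply hne
      simp [hx.2, hy.2]
    · simp at hxy
    · simp at hxy
    · apply hind
      change G.Adj (Sum.inr x) (Sum.inr y)
      rw [G_rr]
      intro h
      apply hne
      simp [h]
  simpa using this

lemma loc_cycle (i : Fin 4) : locInd G (Sum.inl i) ≤ 5 := by
  classical
  unfold locInd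
  obtain ⟨s, hs⟩ := (G.induce (G.neighborSet (Sum.inl i))).exists_isNIndepSet_indepNum
  rw [SimpleGraph.isNIndepSet_iff] at hs
  rw [← hs.2]
  have : s.card ≤ (univ : Finset (Option (Fin 4))).card := by
    apply Finset.card_le_card_of_injOn
      (fun x => Sum.elim (fun i : Fin 4 => some i) (fun _ => none) x.1) (fun _ _ => by simp)
    rintro ⟨x, hx⟩ ha ⟨y, hy⟩ hb hxy
    rw [SimpleGraph.mem_neighborSet] at hx hy
    rcases x with x | x <;> rcases y with y | y
    · simp at hxy
      simp [hxy]
    · simp at hxy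
    · simp at hxy
    · rw [G_lr] at hx hy
      simp [hx.2, hy.2]
  simpa using this

lemma avg_lt : avgLocInd G ≤ 121 / 104 := by
  unfold avgLocInd
  have hcard : (Fintype.card (Fin 4 ⊕ Fin 100) : ℝ) = 104 := by
    rw [Fintype.card_sum, Fintype.card_fin, Fintype.card_fin]; norm_num
  rw [hcard, Fintype.sum_sum_type, div_le_div_iff_of_pos_right (by norm_num)]
  have h1 : ∑ i : Fin 4, (locInd G (Sum.inl i) : ℝ) ≤ ∑ _i : Fin 4, (5 : ℝ) :=
    Finset.sum_le_sum fun i _ => by exact_mod_cast loc_cycle i
  have h2 : ∑ j : Fin 100, (locInd G (Sum.inr j) : ℝ) ≤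
      ∑ j : Fin 100, (1 + (if j = 0 then 1 else 0) : ℝ) := by
    refine Finset.sum_le_sum fun j _ => ?_
    by_cases hj : j = 0
    · rw [hj, if_pos rfl]
      have : (locInd G (Sum.inr 0) : ℝ) ≤ (2 : ℕ) := by exact_mod_cast loc_join
      norm_num at this ⊢
      linarith
    · rw [if_neg hj]
      have : (locInd G (Sum.inr j) : ℝ) ≤ (1 : ℕ) := by exact_mod_cast loc_clique j hj
      norm_num at this ⊢
      linarith
  have h3 : ∑ _i : Fin 4, (5 : ℝ) = 20 := by simp; norm_num
  have h4 : ∑ j : Fin 100, (1 + (if j = 0 then 1 else 0) : ℝ) = 101 := by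
    rw [Finset.sum_add_distrib]
    simp
    norm_num
  linarith

lemma avg_pos : 0 < avgLocInd G := by
  unfold avgLocInd
  apply div_pos
  · apply Finset.sum_pos'
    · intro i _
      positivity
    · refine ⟨Sum.inr 1, mem_univ _, ?_⟩
      have : 0 < locInd G (Sum.inr 1) := by
        unfold locInd
        have hmem : (Sum.inr 2 : Fin 4 ⊕ Fin 100) ∈ G.neighborSet (Sum.inr 1) := by
          rw [SimpleGraph.mem_neighborSet, G_rr]; decide
        have h : (G.induce (G.neighborSet (Sum.inr 1))).IsIndepSet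
            (({⟨Sum.inr 2, hmem⟩} : Finset (G.neighborSet (Sum.inr 1))) :
              Set (G.neighborSet (Sum.inr 1))) := by
          simp [SimpleGraph.IsIndepSet]
        have h2 := h.card_le_indepNum
        rw [Finset.card_singleton] at h2
        exact h2
      exact_mod_cast this
  · rw [Fintype.card_sum, Fintype.card_fin, Fintype.card_fin]; norm_num

/-- The conjectured inequality fails: some connected graph with at least two vertices has
`f(G) < ⌈b(G) / l̄⌉`. -/
theorem result : ∃ (V : Type) (_ : Fintype V) (G : SimpleGraph V), G.Connected ∧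
    2 ≤ Fintype.card V ∧ (forestNum G : ℤ) < ⌈(bipNum G : ℝ) / avgLocInd G⌉ := by
  refine ⟨Fin 4 ⊕ Fin 100, inferInstance, G, connected, by simp, ?_⟩
  rw [Int.lt_ceil]
  have h1 : (forestNum G : ℝ) ≤ 5 := by exact_mod_cast forest_le
  have h2 : (6 : ℝ) ≤ (bipNum G : ℝ) := by exact_mod_cast bip_ge
  have h3 := avg_lt
  have h4 := avg_pos
  rw [Int.cast_natCast, lt_div_iff₀ h4]
  have h5 : (forestNum G : ℝ) * avgLocInd G ≤ 5 * (121 / 104) :=
    mul_le_mul h1 h3 h4.le (by norm_num)
  linarith

end Pool.Agent.Results.MP_0f31da_co.ForestDisproof
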